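import Pool.Agent.Helper17.KA.CodimDefs
import Pool.Agent.Helper17.KA.Two

set_option autoImplicit false
set_option linter.unusedSectionVars false

/-!
Project KA (MP_0b9e0b_ag), cycles of codimension one and two: counting.
-/

namespace Pool.Agent.Helper67.KA2

open Pool.Agent.Helper1.KL (coef Idx IT)
open Pool.Agent.Helper17.KA
open Pool.Agent.Helper19.KL (coef_ne mem_IT coef_eq_zero)

section count

variable {k : Type} [Field k] {p a : ℕ} [Fact p.Prime] [NeZero p] [CharP k p] {n : ℕ}
  {c : Fin n → k} {τ : Fin n → Option (ZMod p)}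

/-- The triples counted by `isoN`. -/
noncomputable def D (p a : ℕ) [NeZero p] {n : ℕ} (c : Fin n → k) : Finset (Fin n × Fin n × (ZMod p)ˣ) := by
  classical exact Finset.univ.filter fun x =>
    x.1 < x.2.1 ∧ c x.1 = (((x.2.2 : ZMod p).val : ℕ) : k) ^ (a - 1) * c x.2.1

theorem mem_D {x : Fin n × Fin n × (ZMod p)ˣ} : x ∈ D p a c ↔
    x.1 < x.2.1 ∧ c x.1 = (((x.2.2 : ZMod p).val : ℕ) : k) ^ (a - 1) * c x.2.1 := by
  classical
  unfold D
  rw [Finset.mem_filter]
  exact ⟨fun h => h.2, fun h => ⟨Finset.mem_univ _, h⟩⟩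

theorem card_D : (D p a c).card = isoN p a c := by
  classical
  unfold isoN
  rw [Nat.card_eq_fintype_card, Fintype.card_subtype]
  unfold D
  congr 1

theorem mem_sp {i : Fin n} : i ∈ sp τ ↔ coef τ i ≠ 0 := by
  unfold sp
  rw [Finset.mem_filter]
  exact ⟨fun h => h.2, fun h => ⟨Finset.mem_univ _, h⟩⟩

theorem sp_sub : sp τ ⊆ IT τ := fun _ hi => mem_IT.2 (coef_ne (mem_sp.1 hi))

theorem getD_ne {i : Fin n} (h : coef τ i ≠ 0) : (τ i).getD 0 ≠ 0 := fun h0 =>
  h (coef_eq_zero.2 h0)

theorem some_getD {i : Fin n} (h : τ i ≠ none) : τ i = some ((τ i).getD 0) := by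
  cases h2 : τ i with
  | none => exact absurd h2 h
  | some a => rfl

/-- The relation is symmetric. -/
theorem rel_symm {i j : Fin n} (hi : coef τ i ≠ 0) (hj : coef τ j ≠ 0)
    (h : (coef τ i : k) * c i + (coef τ j : k) * c j * (-(coef τ i : k) / (coef τ j : k)) ^ a = 0) :
    (coef τ j : k) * c j + (coef τ i : k) * c i * (-(coef τ j : k) / (coef τ i : k)) ^ a = 0 := by
  have hik := coef_cast_ne k k hi
  have hjk := coef_cast_ne k k hj
  have h1 : (-(coef τ i : k) / (coef τ j : k)) ^ a * (-(coef τ j : k) / (coef τ i : k)) ^ a = 1 := by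
    rw [← mul_pow]
    have : -(coef τ i : k) / (coef τ j : k) * (-(coef τ j : k) / (coef τ i : k)) = 1 := by
      field_simp
    rw [this, one_pow]
  linear_combination (-(coef τ j : k) / (coef τ i : k)) ^ a * h - (coef τ j : k) * c j * h1

/-- The condition of the triples. -/
theorem cond_of_rel (ha : 1 ≤ a) {i j : Fin n} (hi : coef τ i ≠ 0) (hj : coef τ j ≠ 0)
    (hrel : (coef τ i : k) * c i +
      (coef τ j : k) * c j * (-(coef τ i : k) / (coef τ j : k)) ^ a = 0) :
    c i = (((-((τ i).getD 0 * ((τ j).getD 0)⁻¹) : ZMod p).val : ℕ) : k) ^ (a - 1) * c j := by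
  have hι : ∀ ρ : ZMod p, ((ρ.val : ℕ) : k) = ZMod.castHom (dvd_refl p) k ρ := by
    intro ρ
    rw [ZMod.castHom_apply, ZMod.natCast_val]
  have hik := coef_cast_ne k k hi
  have hjk := coef_cast_ne k k hj
  have h2 : (coef τ i : k) = ZMod.castHom (dvd_refl p) k ((τ i).getD 0) := hι _
  have h3 : (coef τ j : k) = ZMod.castHom (dvd_refl p) k ((τ j).getD 0) := hι _
  have h4 : (((-((τ i).getD 0 * ((τ j).getD 0)⁻¹) : ZMod p).val : ℕ) : k) =
      -(coef τ i : k) / (coef τ j : k) := by
    rw [hι, map_neg, map_mul, map_inv₀, ← h2, ← h3]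
    field_simp
  rw [h4]
  obtain ⟨b, rfl⟩ := Nat.exists_eq_add_of_le' ha
  rw [Nat.add_sub_cancel]
  rw [pow_succ] at hrel
  refine mul_left_cancel₀ hik ?_
  have h5 : (coef τ j : k) * c j * ((-(coef τ i : k) / (coef τ j : k)) ^ b *
      (-(coef τ i : k) / (coef τ j : k))) =
      -((coef τ i : k) * ((-(coef τ i : k) / (coef τ j : k)) ^ b * c j)) := by
    field_simp
  rw [h5] at hrel
  linear_combination hrel

open scoped Classical in
/-- The number of the indices `τ` with the property `Flat` and the given set of finite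
coordinates. -/
theorem card_flat (ha : 1 ≤ a) (I : Finset (Fin n)) :
    ({τ | IT τ = I ∧ Flat a c τ} : Finset (Fin n → Option (ZMod p))).card ≤
      I.card * (p - 1) +
        ((D p a c).filter fun x => x.1 ∈ I ∧ x.2.1 ∈ I).card * (p - 1) := by
  let f : Fin n × (ZMod p)ˣ → (Fin n → Option (ZMod p)) := fun y m =>
    if m = y.1 then some (y.2 : ZMod p) else if m ∈ I then some 0 else none
  let g : (Fin n × Fin n × (ZMod p)ˣ) × (ZMod p)ˣ → (Fin n → Option (ZMod p)) := fun y m =>
    if m = y.1.2.1 then some (y.2 : ZMod p) else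
      if m = y.1.1 then some (-((y.1.2.2 : ZMod p) * (y.2 : ZMod p))) else
        if m ∈ I then some 0 else none
  have hsub : ({τ | IT τ = I ∧ Flat a c τ} : Finset (Fin n → Option (ZMod p))) ⊆
      (I ×ˢ (Finset.univ : Finset (ZMod p)ˣ)).image f ∪
        (((D p a c).filter fun x => x.1 ∈ I ∧ x.2.1 ∈ I) ×ˢ
          (Finset.univ : Finset (ZMod p)ˣ)).image g := by
    intro τ hτ
    rw [Finset.mem_filter] at hτ
    obtain ⟨-, hI, hflat⟩ := hτ
    have hz : ∀ m, m ∉ sp τ → τ m = if m ∈ I then some 0 else none := by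
      intro m hm
      rw [mem_sp, not_not] at hm
      by_cases hmI : m ∈ I
      · rw [if_pos hmI]
        rw [← hI, mem_IT] at hmI
        exact (coef_eq_zero_iff hmI).1 hm
      · rw [if_neg hmI]
        rw [← hI, mem_IT, not_not] at hmI
        exact hmI
    rw [Finset.mem_union]
    rcases hflat with ⟨i, hi⟩ | hflat
    · left
      have hi1 : coef τ i ≠ 0 := mem_sp.1 (by rw [hi]; simp)
      rw [Finset.mem_image]
      refine ⟨(i, Units.mk0 ((τ i).getD 0) (getD_ne hi1)), ?_, ?_⟩
      · rw [Finset.mem_product]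
        exact ⟨hI ▸ mem_IT.2 (coef_ne hi1), Finset.mem_univ _⟩
      · funext m
        simp only [f, Units.val_mk0]
        by_cases hm : m = i
        · rw [if_pos hm, hm]
          exact (some_getD (coef_ne hi1)).symm
        · rw [if_neg hm]
          exact (hz m (by rw [hi, Finset.mem_singleton]; exact hm)).symm
    · right
      obtain ⟨i, j, hij, hsp, hrel⟩ : ∃ i j, i < j ∧ sp τ = {i, j} ∧
          (coef τ i : k) * c i +
            (coef τ j : k) * c j * (-(coef τ i : k) / (coef τ j : k)) ^ a = 0 := by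
        obtain ⟨i, j, hij, hsp, hrel⟩ := hflat
        have hi1 : coef τ i ≠ 0 := mem_sp.1 (by rw [hsp]; simp)
        have hj1 : coef τ j ≠ 0 := mem_sp.1 (by rw [hsp]; simp)
        rcases lt_or_gt_of_ne hij with h | h
        · exact ⟨i, j, h, hsp, hrel⟩
        · exact ⟨j, i, h, by rw [hsp, Finset.pair_comm], rel_symm hi1 hj1 hrel⟩
      have hi1 : coef τ i ≠ 0 := mem_sp.1 (by rw [hsp]; simp)
      have hj1 : coef τ j ≠ 0 := mem_sp.1 (by rw [hsp]; simp)
      have hcond := cond_of_rel ha hi1 hj1 hrel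
      rw [Finset.mem_image]
      refine ⟨((i, j, Units.mk0 (-((τ i).getD 0 * ((τ j).getD 0)⁻¹))
        (neg_ne_zero.2 (mul_ne_zero (getD_ne hi1) (inv_ne_zero (getD_ne hj1))))),
        Units.mk0 ((τ j).getD 0) (getD_ne hj1)), ?_, ?_⟩
      · rw [Finset.mem_product, Finset.mem_filter]
        exact ⟨⟨mem_D.2 ⟨hij, hcond⟩, hI ▸ mem_IT.2 (coef_ne hi1), hI ▸ mem_IT.2 (coef_ne hj1)⟩,
          Finset.mem_univ _⟩
      · funext m
        simp only [g, Units.val_mk0]
        by_cases hmj : m = j
        · rw [if_pos hmj, hmj]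
          exact (some_getD (coef_ne hj1)).symm
        · rw [if_neg hmj]
          by_cases hmi : m = i
          · rw [if_pos hmi, hmi, neg_mul, neg_neg, inv_mul_cancel_right₀ (getD_ne hj1)]
            exact (some_getD (coef_ne hi1)).symm
          · rw [if_neg hmi]
            refine (hz m ?_).symm
            rw [hsp, Finset.mem_insert, Finset.mem_singleton]
            rintro (h | h)
            · exact hmi h
            · exact hmj h
  refine (Finset.card_le_card hsub).trans ((Finset.card_union_le _ _).trans ?_)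
  refine add_le_add (Finset.card_image_le.trans (le_of_eq ?_))
    (Finset.card_image_le.trans (le_of_eq ?_))
  · rw [Finset.card_product, Finset.card_univ, ZMod.card_units]
  · rw [Finset.card_product, Finset.card_univ, ZMod.card_units]

open scoped Classical in
/-- All coordinates are finite. -/
theorem card_flat_all (ha : 1 ≤ a) :
    ({τ | (∀ o, τ o ≠ none) ∧ Flat a c τ} : Finset (Fin n → Option (ZMod p))).card ≤
      n * (p - 1) + (p - 1) * isoN p a c := by
  have h1 := card_flat (c := c) (p := p) ha Finset.univ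
  have h2 : ((D p a c).filter fun x => x.1 ∈ Finset.univ ∧ x.2.1 ∈ Finset.univ) = D p a c := by
    rw [Finset.filter_true_of_mem]
    intro x _
    exact ⟨Finset.mem_univ _, Finset.mem_univ _⟩
  rw [h2, card_D, Finset.card_univ, Fintype.card_fin, mul_comm (isoN p a c)] at h1
  refine le_trans (le_of_eq ?_) h1
  congr 1
  ext τ
  rw [Finset.mem_filter, Finset.mem_filter, Finset.eq_univ_iff_forall]
  simp only [mem_IT]

open scoped Classical in
/-- All coordinates but one are finite. -/
theorem card_flat_one (ha : 1 ≤ a) :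
    ({τ | (IT τ).card + 1 = n ∧ Flat a c τ} : Finset (Fin n → Option (ZMod p))).card ≤
      n * (n - 1) * (p - 1) + (n - 2) * (p - 1) * isoN p a c := by
  have hsub : ({τ | (IT τ).card + 1 = n ∧ Flat a c τ} : Finset (Fin n → Option (ZMod p))) ⊆
      (Finset.univ : Finset (Fin n)).biUnion fun l =>
        {τ | IT τ = Finset.univ.erase l ∧ Flat a c τ} := by
    intro τ hτ
    rw [Finset.mem_filter] at hτ
    obtain ⟨-, hcard, hflat⟩ := hτ
    obtain ⟨l, hl⟩ : ∃ l, l ∉ IT τ := by
      by_contra h
      push Not at h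
      rw [Finset.eq_univ_of_forall h, Finset.card_univ, Fintype.card_fin] at hcard
      omega
    rw [Finset.mem_biUnion]
    refine ⟨l, Finset.mem_univ _, ?_⟩
    rw [Finset.mem_filter]
    refine ⟨Finset.mem_univ _, ?_, hflat⟩
    refine Finset.eq_of_subset_of_card_le ?_ ?_
    · intro i hi
      rw [Finset.mem_erase]
      refine ⟨?_, Finset.mem_univ _⟩
      rintro rfl
      exact hl hi
    · rw [Finset.card_erase_of_mem (Finset.mem_univ _), Finset.card_univ, Fintype.card_fin]
      omega
  refine (Finset.card_le_card hsub).trans (Finset.card_biUnion_le.trans ?_)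
  refine (Finset.sum_le_sum fun l _ => card_flat ha (Finset.univ.erase l)).trans ?_
  rw [Finset.sum_add_distrib, ← Finset.sum_mul, ← Finset.sum_mul]
  refine add_le_add (le_of_eq ?_) (le_of_eq ?_)
  · simp only [Finset.card_erase_of_mem (Finset.mem_univ _), Finset.card_univ, Fintype.card_fin,
      Finset.sum_const, smul_eq_mul]
  · have h1 : ∑ l : Fin n, ((D p a c).filter fun x =>
        x.1 ∈ (Finset.univ : Finset (Fin n)).erase l ∧ x.2.1 ∈ Finset.univ.erase l).card =
        (n - 2) * isoN p a c := by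
      simp only [Finset.card_filter]
      rw [Finset.sum_comm, ← card_D]
      rw [mul_comm, ← smul_eq_mul, ← Finset.sum_const]
      refine Finset.sum_congr rfl fun x hx => ?_
      rw [← Finset.card_filter]
      have hne : x.1 ≠ x.2.1 := (mem_D.1 hx).1.ne
      have h2 : (Finset.univ.filter fun l : Fin n => x.1 ∈ (Finset.univ : Finset (Fin n)).erase l ∧
          x.2.1 ∈ (Finset.univ : Finset (Fin n)).erase l) =
          Finset.univ \ ({x.1, x.2.1} : Finset (Fin n)) := by
        ext l
        simp only [Finset.mem_filter, Finset.mem_univ, Finset.mem_erase, Finset.mem_sdiff,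
          Finset.mem_insert, Finset.mem_singleton, true_and, and_true, not_or]
        exact ⟨fun h => ⟨fun h3 => h.1 h3.symm, fun h3 => h.2 h3.symm⟩,
          fun h => ⟨fun h3 => h.1 h3.symm, fun h3 => h.2 h3.symm⟩⟩
      rw [h2, Finset.card_sdiff_of_subset (Finset.subset_univ _), Finset.card_univ,
        Fintype.card_fin, Finset.card_pair hne]
    rw [h1]
    ring

theorem IT_cut : IT (cut τ) = sp τ := by
  ext i
  rw [mem_IT, mem_sp]
  unfold cut
  by_cases h : coef τ i = 0
  · rw [if_pos h]
    exact ⟨fun h1 => absurd rfl h1, fun h1 => absurd h h1⟩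
  · rw [if_neg h]
    exact ⟨fun _ => h, fun _ => coef_ne h⟩

theorem cut_mem {m : ℕ} (h : (sp τ).card = m) : cut τ ∈ Full p n m := by
  classical
  unfold Full
  rw [Finset.mem_filter]
  refine ⟨Finset.mem_univ _, fun i hi => ?_, by rw [IT_cut, h]⟩
  unfold cut at hi
  split_ifs at hi with h0
  exact h0 ((coef_eq_zero_iff (by rw [hi]; exact Option.some_ne_none _)).2 hi)

theorem cut_inj {τ τ' : Fin n → Option (ZMod p)} (h : ∀ o, τ o ≠ none) (h' : ∀ o, τ' o ≠ none)
    (hcut : cut τ = cut τ') : τ = τ' := by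
  funext o
  have h1 := congrFun hcut o
  unfold cut at h1
  by_cases h2 : coef τ o = 0
  · rw [if_pos h2] at h1
    by_cases h3 : coef τ' o = 0
    · rw [(coef_eq_zero_iff (h o)).1 h2, (coef_eq_zero_iff (h' o)).1 h3]
    · rw [if_neg h3] at h1
      exact absurd h1.symm (h' o)
  · rw [if_neg h2] at h1
    by_cases h3 : coef τ' o = 0
    · rw [if_pos h3] at h1
      exact absurd h1 (h o)
    · rw [if_neg h3] at h1
      exact h1

open scoped Classical in
/-- The sum over the indices with all coordinates finite and `m` nonzero coefficients. -/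
theorem sum_cut (m : ℕ) (f : (Fin n → Option (ZMod p)) → ℕ) :
    ∑ τ ∈ ({τ | (∀ o, τ o ≠ none) ∧ (sp τ).card = m} : Finset (Fin n → Option (ZMod p))),
      f (cut τ) ≤ ∑ τ ∈ Full p n m, f τ := by
  have h1 : ∑ τ ∈ ({τ | (∀ o, τ o ≠ none) ∧ (sp τ).card = m} :
      Finset (Fin n → Option (ZMod p))), f (cut τ) =
      ∑ τ ∈ ({τ | (∀ o, τ o ≠ none) ∧ (sp τ).card = m} :
        Finset (Fin n → Option (ZMod p))).image cut, f τ := by
    rw [Finset.sum_image]
    intro τ hτ τ' hτ' hcut
    rw [Finset.mem_coe, Finset.mem_filter] at hτ hτ'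
    exact cut_inj hτ.2.1 hτ'.2.1 hcut
  rw [h1]
  refine Finset.sum_le_sum_of_subset ?_
  intro τ hτ
  rw [Finset.mem_image] at hτ
  obtain ⟨σ, hσ, rfl⟩ := hτ
  rw [Finset.mem_filter] at hσ
  exact cut_mem hσ.2.2

end count

end Pool.Agent.Helper67.KA2
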