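import Mathlib

set_option autoImplicit false

/-!
Project KA, r = 1 (MP_0b9e0b_ag), module A2: the sums `∑ ψ (b x ^ a)` over a finite field, and
the number of solutions of `α₁ x₁ ^ a + α₂ x₂ ^ a + α₃ x₃ ^ a = 0`.
-/

namespace Pool.Agent.Helper67.KA2

open Finset

variable {κ : Type} [Field κ] [Fintype κ]

/-- The number of roots of `x ^ a = c`. -/
theorem card_roots_le [DecidableEq κ] {a : ℕ} (ha : 1 ≤ a) (c : κ) :
    (univ.filter fun x : κ => x ^ a = c).card ≤ a := by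
  have h1 : (univ.filter fun x : κ => x ^ a = c) ⊆ (Polynomial.nthRoots a c).toFinset := by
    intro x hx
    rw [Multiset.mem_toFinset, Polynomial.mem_nthRoots (by omega)]
    exact (mem_filter.1 hx).2
  exact (card_le_card h1).trans ((Multiset.toFinset_card_le _).trans
    (Polynomial.card_nthRoots a c))

/-- `∑ ψ (b x ^ a)`. -/
noncomputable def S (ψ : AddChar κ ℂ) (a : ℕ) (b : κ) : ℂ := ∑ x : κ, ψ (b * x ^ a)

theorem S_zero (ψ : AddChar κ ℂ) (a : ℕ) : S ψ a 0 = Fintype.card κ := by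
  simp [S]

theorem S_mul (ψ : AddChar κ ℂ) (a : ℕ) (b u : κ) (hu : u ≠ 0) : S ψ a (b * u ^ a) = S ψ a b := by
  unfold S
  refine Fintype.sum_equiv (Equiv.mulLeft₀ u hu) _ _ fun x => ?_
  rw [Equiv.mulLeft₀_apply, mul_pow, ← mul_assoc]

theorem norm_sq_S (ψ : AddChar κ ℂ) (a : ℕ) (b : κ) :
    ((‖S ψ a b‖ ^ 2 : ℝ) : ℂ) = ∑ x : κ, ∑ y : κ, ψ (b * (x ^ a - y ^ a)) := by
  have h1 : ((‖S ψ a b‖ ^ 2 : ℝ) : ℂ) = S ψ a b * (starRingEnd ℂ) (S ψ a b) := by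
    rw [Complex.mul_conj, Complex.normSq_eq_norm_sq]
  rw [h1]
  unfold S
  rw [map_sum, sum_mul_sum]
  refine sum_congr rfl fun x _ => sum_congr rfl fun y _ => ?_
  rw [← AddChar.map_neg_eq_conj, ← AddChar.map_add_eq_mul]
  congr 1
  ring

theorem sum_norm_sq [DecidableEq κ] {ψ : AddChar κ ℂ} (hψ : ψ.IsPrimitive) (a : ℕ) :
    ∑ b : κ, ‖S ψ a b‖ ^ 2 =
      Fintype.card κ * ∑ x : κ, ((univ.filter fun y : κ => y ^ a = x ^ a).card : ℝ) := by
  have h1 : ((∑ b : κ, ‖S ψ a b‖ ^ 2 : ℝ) : ℂ) =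
      ((Fintype.card κ * ∑ x : κ, ((univ.filter fun y : κ => y ^ a = x ^ a).card : ℝ) : ℝ) : ℂ) := by
    rw [Complex.ofReal_sum]
    simp_rw [norm_sq_S]
    rw [sum_comm]
    have h2 : ∀ x y : κ, ∑ b : κ, ψ (b * (x ^ a - y ^ a)) =
        if y ^ a = x ^ a then (Fintype.card κ : ℂ) else 0 := by
      intro x y
      rw [AddChar.sum_mulShift (x ^ a - y ^ a) hψ]
      by_cases h : y ^ a = x ^ a
      · simp [h]
      · rw [if_neg h, if_neg (fun h' => h (sub_eq_zero.1 h').symm)]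
        simp
    have h3 : ∀ x : κ, ∑ b : κ, ∑ y : κ, ψ (b * (x ^ a - y ^ a)) =
        (Fintype.card κ : ℂ) * ((univ.filter fun y : κ => y ^ a = x ^ a).card : ℂ) := by
      intro x
      rw [sum_comm]
      simp_rw [h2]
      rw [← sum_filter, sum_const, nsmul_eq_mul, mul_comm]
    simp_rw [h3]
    rw [← mul_sum]
    push_cast
    rfl
  exact_mod_cast h1

/-- The bound for the sums `∑ ψ (b x ^ a)`. -/
theorem norm_S_le {ψ : AddChar κ ℂ} (hψ : ψ.IsPrimitive) {a : ℕ} (ha : 1 ≤ a) {b : κ}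
    (hb : b ≠ 0) : ‖S ψ a b‖ ^ 2 ≤ (a : ℝ) ^ 2 * (Fintype.card κ : ℝ) := by
  classical
  set Q : ℝ := (Fintype.card κ : ℝ) with hQ
  have hQ1 : 1 < Q := by
    rw [hQ]
    exact_mod_cast Fintype.one_lt_card
  have ha1 : (1 : ℝ) ≤ a := by exact_mod_cast ha
  have h1 := sum_norm_sq (κ := κ) hψ a
  -- the number of pairs
  have h2 : ∑ x : κ, ((univ.filter fun y : κ => y ^ a = x ^ a).card : ℝ) ≤ 1 + (Q - 1) * a := by
    rw [← add_sum_erase univ _ (mem_univ (0 : κ))]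
    refine add_le_add ?_ ?_
    · have : (univ.filter fun y : κ => y ^ a = (0 : κ) ^ a) = {0} := by
        ext y
        rw [mem_filter, mem_singleton, zero_pow (by omega)]
        simp [show a ≠ 0 by omega]
      rw [this]
      simp
    · refine (sum_le_card_nsmul _ _ (a : ℝ) fun x _ => ?_).trans ?_
      · exact_mod_cast card_roots_le ha (x ^ a)
      · rw [nsmul_eq_mul, card_erase_of_mem (mem_univ _), card_univ,
          Nat.cast_pred Fintype.card_pos]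
  -- the sum over the units
  have h3 : (Q - 1) * ‖S ψ a b‖ ^ 2 ≤ a * ∑ c ∈ univ.erase (0 : κ), ‖S ψ a c‖ ^ 2 := by
    have h4 : (Q - 1) * ‖S ψ a b‖ ^ 2 = ∑ u ∈ univ.erase (0 : κ), ‖S ψ a (b * u ^ a)‖ ^ 2 := by
      rw [sum_congr rfl (g := fun _ => ‖S ψ a b‖ ^ 2) fun u hu => by
        rw [S_mul ψ a b u (ne_of_mem_erase hu)]]
      rw [sum_const, nsmul_eq_mul, card_erase_of_mem (mem_univ _), card_univ,
        Nat.cast_pred Fintype.card_pos]
    have h5 : ∀ u ∈ univ.erase (0 : κ), b * u ^ a ∈ univ.erase (0 : κ) := fun u hu =>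
      mem_erase.2 ⟨mul_ne_zero hb (pow_ne_zero _ (ne_of_mem_erase hu)), mem_univ _⟩
    rw [h4, ← sum_fiberwise_of_maps_to h5, mul_sum]
    refine sum_le_sum fun c _ => ?_
    rw [sum_congr rfl (g := fun _ => ‖S ψ a c‖ ^ 2) fun u hu => by rw [(mem_filter.1 hu).2]]
    rw [sum_const, nsmul_eq_mul]
    refine mul_le_mul_of_nonneg_right ?_ (by positivity)
    have h6 : ((univ.erase (0 : κ)).filter fun u => b * u ^ a = c) ⊆
        univ.filter fun u : κ => u ^ a = b⁻¹ * c := by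
      intro u hu
      rw [mem_filter] at hu ⊢
      refine ⟨mem_univ _, ?_⟩
      rw [← hu.2]
      field_simp
    exact_mod_cast (card_le_card h6).trans (card_roots_le ha _)
  have h7 : ∑ c ∈ univ.erase (0 : κ), ‖S ψ a c‖ ^ 2 = ∑ c : κ, ‖S ψ a c‖ ^ 2 - Q ^ 2 := by
    rw [← add_sum_erase univ _ (mem_univ (0 : κ)), S_zero]
    simp [hQ]
  rw [h7, h1] at h3
  have h8 : (Q - 1) * ‖S ψ a b‖ ^ 2 ≤ (Q - 1) * ((a : ℝ) ^ 2 * Q) := by
    refine h3.trans ?_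
    have h9 : Q * ∑ x : κ, ((univ.filter fun y : κ => y ^ a = x ^ a).card : ℝ) - Q ^ 2 ≤
        Q * (1 + (Q - 1) * a) - Q ^ 2 := by nlinarith
    calc (a : ℝ) * (Q * ∑ x : κ, ((univ.filter fun y : κ => y ^ a = x ^ a).card : ℝ) - Q ^ 2) ≤
        a * (Q * (1 + (Q - 1) * a) - Q ^ 2) := mul_le_mul_of_nonneg_left h9 (by linarith)
      _ = (Q - 1) * (a * (a - 1) * Q) := by ring
      _ ≤ (Q - 1) * ((a : ℝ) ^ 2 * Q) := by
        refine mul_le_mul_of_nonneg_left ?_ (by linarith)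
        refine mul_le_mul_of_nonneg_right ?_ (by linarith)
        nlinarith
  exact le_of_mul_le_mul_left h8 (by linarith)

theorem norm_S_le' {ψ : AddChar κ ℂ} (hψ : ψ.IsPrimitive) {a : ℕ} (ha : 1 ≤ a) {b : κ}
    (hb : b ≠ 0) : ‖S ψ a b‖ ≤ a * Real.sqrt (Fintype.card κ) := by
  have h1 := norm_S_le hψ ha hb
  rw [← Real.sqrt_sq (norm_nonneg (S ψ a b)), ← Real.sqrt_sq (Nat.cast_nonneg (α := ℝ) a),
    ← Real.sqrt_mul (by positivity)]
  exact Real.sqrt_le_sqrt h1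

/-- The number of solutions of a diagonal equation in three variables. -/
theorem card_mul [DecidableEq κ] {ψ : AddChar κ ℂ} (hψ : ψ.IsPrimitive) (a : ℕ) (α β γ : κ) :
    (Fintype.card κ : ℂ) * (Nat.card {x : κ × κ × κ //
      α * x.1 ^ a + β * x.2.1 ^ a + γ * x.2.2 ^ a = 0} : ℂ) =
      ∑ t : κ, S ψ a (t * α) * S ψ a (t * β) * S ψ a (t * γ) := by
  have h1 : ∀ t : κ, S ψ a (t * α) * S ψ a (t * β) * S ψ a (t * γ) =
      ∑ x : κ × κ × κ, ψ (t * (α * x.1 ^ a + β * x.2.1 ^ a + γ * x.2.2 ^ a)) := by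
    intro t
    have h0 : ∀ x y z : κ, ψ (t * (α * x ^ a + β * y ^ a + γ * z ^ a)) =
        ψ (t * α * x ^ a) * ψ (t * β * y ^ a) * ψ (t * γ * z ^ a) := by
      intro x y z
      rw [← AddChar.map_add_eq_mul, ← AddChar.map_add_eq_mul]
      congr 1
      ring
    simp_rw [Fintype.sum_prod_type, h0, ← mul_sum]
    simp_rw [← sum_mul, ← mul_sum]
    rw [← sum_mul]
    rfl
  simp_rw [h1]
  rw [sum_comm]
  have h2 : ∀ x : κ × κ × κ, ∑ t : κ, ψ (t * (α * x.1 ^ a + β * x.2.1 ^ a + γ * x.2.2 ^ a)) =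
      if α * x.1 ^ a + β * x.2.1 ^ a + γ * x.2.2 ^ a = 0 then (Fintype.card κ : ℂ) else 0 := by
    intro x
    rw [AddChar.sum_mulShift _ hψ]
    split_ifs <;> simp
  simp_rw [h2]
  rw [← sum_filter, sum_const, nsmul_eq_mul, Nat.card_eq_fintype_card, Fintype.card_subtype,
    mul_comm]

/-- Module A2. -/
theorem card_diag [DecidableEq κ] {ψ : AddChar κ ℂ} (hψ : ψ.IsPrimitive) {a : ℕ} (ha : a ≠ 0)
    {α β γ : κ} (hα : α ≠ 0) (hβ : β ≠ 0) (hγ : γ ≠ 0) :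
    |(Nat.card {x : κ × κ × κ // α * x.1 ^ a + β * x.2.1 ^ a + γ * x.2.2 ^ a = 0} : ℝ) -
      (Fintype.card κ : ℝ) ^ 2| ≤
      (a : ℝ) ^ 3 * ((Fintype.card κ : ℝ) * Real.sqrt (Fintype.card κ)) := by
  have ha' : 1 ≤ a := Nat.one_le_iff_ne_zero.2 ha
  set Q : ℝ := (Fintype.card κ : ℝ) with hQ
  set M : ℝ := (Nat.card {x : κ × κ × κ // α * x.1 ^ a + β * x.2.1 ^ a + γ * x.2.2 ^ a = 0} : ℝ)
    with hM
  have hQ1 : 1 < Q := by
    rw [hQ]
    exact_mod_cast Fintype.one_lt_card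
  have h1 := card_mul hψ a α β γ
  rw [← add_sum_erase univ _ (mem_univ (0 : κ))] at h1
  simp only [zero_mul, S_zero] at h1
  have h2 : ((Q * M - Q ^ 3 : ℝ) : ℂ) =
      ∑ t ∈ univ.erase (0 : κ), S ψ a (t * α) * S ψ a (t * β) * S ψ a (t * γ) := by
    have h3 : ((Q * M - Q ^ 3 : ℝ) : ℂ) = (Fintype.card κ : ℂ) * (Nat.card {x : κ × κ × κ //
      α * x.1 ^ a + β * x.2.1 ^ a + γ * x.2.2 ^ a = 0} : ℂ) - (Fintype.card κ : ℂ) ^ 3 := by
      rw [hQ, hM]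
      push_cast
      rfl
    rw [h3, h1]
    ring
  have h4 : |Q * M - Q ^ 3| ≤ (Q - 1) * (a * Real.sqrt Q) ^ 3 := by
    have h5 : |Q * M - Q ^ 3| = ‖((Q * M - Q ^ 3 : ℝ) : ℂ)‖ := by
      rw [Complex.norm_real, Real.norm_eq_abs]
    rw [h5, h2]
    refine (norm_sum_le _ _).trans ((sum_le_card_nsmul _ _ ((a * Real.sqrt Q) ^ 3)
      fun t ht => ?_).trans ?_)
    · have ht0 : t ≠ 0 := ne_of_mem_erase ht
      rw [norm_mul, norm_mul, pow_succ, sq]
      have e1 := norm_S_le' hψ ha' (mul_ne_zero ht0 hα)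
      have e2 := norm_S_le' hψ ha' (mul_ne_zero ht0 hβ)
      have e3 := norm_S_le' hψ ha' (mul_ne_zero ht0 hγ)
      exact mul_le_mul (mul_le_mul e1 e2 (norm_nonneg _) (by positivity)) e3 (norm_nonneg _)
        (by positivity)
    · rw [nsmul_eq_mul, card_erase_of_mem (mem_univ _), card_univ,
        Nat.cast_pred Fintype.card_pos]
  have h6 : Q * |M - Q ^ 2| = |Q * M - Q ^ 3| := by
    rw [← abs_of_pos (show 0 < Q by linarith), ← abs_mul, abs_of_pos (show 0 < Q by linarith)]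
    congr 1
    ring
  have h7 : (a * Real.sqrt Q) ^ 3 = (a : ℝ) ^ 3 * (Q * Real.sqrt Q) := by
    have := Real.sq_sqrt (show 0 ≤ Q by linarith)
    calc (a * Real.sqrt Q) ^ 3 = (a : ℝ) ^ 3 * (Real.sqrt Q ^ 2 * Real.sqrt Q) := by ring
      _ = _ := by rw [this]
  rw [h7] at h4
  have h8 : Q * |M - Q ^ 2| ≤ Q * ((a : ℝ) ^ 3 * (Q * Real.sqrt Q)) := by
    rw [h6]
    refine h4.trans (mul_le_mul_of_nonneg_right (by linarith) (by positivity))
  exact le_of_mul_le_mul_left h8 (by linarith)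

end Pool.Agent.Helper67.KA2
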