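import Pool.Agent.Helper1.KL.General
import Pool.Agent.Helper17.KA.CodimDefs

set_option autoImplicit false
set_option linter.unusedSectionVars false

/-!
Project KA (MP_0b9e0b_ag): the points of maximal transcendence degree of a closed subset have
only finitely many keys.
-/

namespace Pool.Agent.Helper67.KA2

open Pool.Agent.Helper1.KL

section ring

variable {k : Type} [Field k] {σ : Type} [Finite σ]

/-- The transcendence degree of the coordinate ring drops under strict inclusion. -/
theorem eq_of_trdeg {P Q : Ideal (MvPolynomial σ k)} [P.IsPrime] [Q.IsPrime] (h : Q ≤ P)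
    (hd : Algebra.trdeg k (MvPolynomial σ k ⧸ Q) ≤ Algebra.trdeg k (MvPolynomial σ k ⧸ P)) :
    Q = P := by
  classical
  refine le_antisymm h ?_
  intro g hg
  by_contra hgQ
  set π : (MvPolynomial σ k ⧸ Q) →ₐ[k] (MvPolynomial σ k ⧸ P) := Ideal.Quotient.factorₐ k h with hπ
  have hπmk : ∀ f : MvPolynomial σ k, π (Ideal.Quotient.mk Q f) = Ideal.Quotient.mk P f :=
    fun f => by simp [hπ]
  set s : Set (MvPolynomial σ k ⧸ P) :=
    Set.range fun j : σ => Ideal.Quotient.mk P (MvPolynomial.X j) with hs
  have hadj : Algebra.adjoin k s = ⊤ := by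
    rw [hs, Algebra.adjoin_range_eq_range_aeval, AlgHom.range_eq_top]
    intro b
    obtain ⟨f, rfl⟩ := Ideal.Quotient.mk_surjective b
    refine ⟨f, ?_⟩
    have : MvPolynomial.aeval (fun j : σ => Ideal.Quotient.mk P (MvPolynomial.X j)) =
        Ideal.Quotient.mkₐ k P := by
      apply MvPolynomial.algHom_ext
      intro j
      simp
    rw [this]
    rfl
  have halg : Algebra.IsAlgebraic (Algebra.adjoin k s) (MvPolynomial σ k ⧸ P) := by
    constructor
    intro b
    have hb : b ∈ Algebra.adjoin k s := by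
      rw [hadj]
      trivial
    exact isAlgebraic_algebraMap (⟨b, hb⟩ : Algebra.adjoin k s)
  obtain ⟨t, hts, ht⟩ := exists_isTranscendenceBasis_subset (R := k) s
  have hfin : t.Finite := (Set.finite_range _).subset hts
  have := hfin.to_subtype
  choose f hf using fun a : t => hts a.2
  let y : t → MvPolynomial σ k ⧸ Q := fun a => Ideal.Quotient.mk Q (MvPolynomial.X (f a))
  have hy : ⇑π ∘ y = ((↑) : t → MvPolynomial σ k ⧸ P) := by
    funext a
    simp only [Function.comp, y, hπmk]
    exact hf a
  have hind : AlgebraicIndependent k y := by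
    refine AlgebraicIndependent.of_comp π ?_
    rw [hy]
    exact ht.1
  have hbase : IsTranscendenceBasis k y := by
    refine hind.isTranscendenceBasis_of_trdeg_le_of_finite ?_
    rw [ht.cardinalMk_eq_trdeg]
    exact hd
  have hal := hbase.isAlgebraic
  have hne : Ideal.Quotient.mk Q g ≠ 0 := by
    rw [Ne, Ideal.Quotient.eq_zero_iff_mem]
    exact hgQ
  obtain ⟨r, hr, hdvd⟩ := (hal.1 (Ideal.Quotient.mk Q g)).exists_nonzero_dvd
    (mem_nonZeroDivisors_of_ne_zero hne)
  obtain ⟨w, hw⟩ := hdvd
  have h1 : π (r : MvPolynomial σ k ⧸ Q) = 0 := by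
    have : (r : MvPolynomial σ k ⧸ Q) = Ideal.Quotient.mk Q g * w := hw
    rw [this, map_mul, hπmk, Ideal.Quotient.eq_zero_iff_mem.2 hg, zero_mul]
  have h2 : (r : MvPolynomial σ k ⧸ Q) ∈ (MvPolynomial.aeval (R := k) y).range := by
    rw [← Algebra.adjoin_range_eq_range_aeval]
    exact r.2
  obtain ⟨q, hq⟩ := h2
  have hq' : MvPolynomial.aeval y q = (r : MvPolynomial σ k ⧸ Q) := hq
  have h3 : MvPolynomial.aeval ((↑) : t → MvPolynomial σ k ⧸ P) q = 0 := by
    rw [← hy]
    exact (MvPolynomial.comp_aeval_apply y π q).symm.trans (by rw [hq', h1])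
  have h4 : q = 0 := ht.1.eq_zero_of_aeval_eq_zero q h3
  apply hr
  apply Subtype.ext
  rw [← hq', h4, map_zero]
  rfl

end ring

section points

variable {k : Type} [Field k] {σ : Type} [Finite σ]

open IntermediateField.algebraAdjoinAdjoin in
/-- The transcendence degree of the field of a point is that of the coordinate ring of its
closure. -/
theorem trdeg_fld_eq {N : Type} [Field N] [Algebra k N] (x : σ → Option N) :
    Algebra.trdeg k (fld k x) = Algebra.trdeg k
      (MvPolynomial σ k ⧸ RingHom.ker (MvPolynomial.aeval (R := k) fun j => (x j).getD 0)) := by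
  set g : σ → N := fun j => (x j).getD 0 with hg
  rw [fld_eq_range]
  have h1 := trdeg_add_eq k (Algebra.adjoin k (Set.range g))
    (A := IntermediateField.adjoin k (Set.range g))
  have h2 : Algebra.trdeg (Algebra.adjoin k (Set.range g))
      (IntermediateField.adjoin k (Set.range g)) = 0 := trdeg_eq_zero
  rw [h2, add_zero] at h1
  rw [← h1]
  have e : (MvPolynomial σ k ⧸ RingHom.ker (MvPolynomial.aeval (R := k) g)) ≃ₐ[k]
      Algebra.adjoin k (Set.range g) :=
    (Ideal.quotientKerEquivRange (MvPolynomial.aeval (R := k) g)).trans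
      (Subalgebra.equivOfEq _ _ (Algebra.adjoin_range_eq_range_aeval k g).symm)
  exact e.symm.trdeg_eq

open scoped Classical in
/-- The generic point of a prime ideal; `I` is the set of the finite coordinates. -/
noncomputable def gen (I : Set σ) (Q : Ideal (MvPolynomial σ k)) [Q.IsPrime] :
    σ → Option (FractionRing (MvPolynomial σ k ⧸ Q)) :=
  fun j => if j ∈ I then some (algebraMap (MvPolynomial σ k ⧸ Q) _
    (Ideal.Quotient.mk Q (MvPolynomial.X j))) else none

theorem gen_ne (I : Set σ) (Q : Ideal (MvPolynomial σ k)) [Q.IsPrime] :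
    {j | gen I Q j ≠ none} = I := by
  classical
  ext j
  by_cases h : j ∈ I <;> simp [gen, h]

theorem aeval_gen (I : Set σ) (Q : Ideal (MvPolynomial σ k)) [Q.IsPrime]
    (hI : ∀ j, j ∉ I → MvPolynomial.X j ∈ Q) (f : MvPolynomial σ k) :
    MvPolynomial.aeval (fun j => (gen I Q j).getD 0) f =
      algebraMap (MvPolynomial σ k ⧸ Q) (FractionRing (MvPolynomial σ k ⧸ Q))
        (Ideal.Quotient.mk Q f) := by
  classical
  have h1 : (fun j => (gen I Q j).getD 0) = fun j => algebraMap (MvPolynomial σ k ⧸ Q)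
      (FractionRing (MvPolynomial σ k ⧸ Q)) (Ideal.Quotient.mk Q (MvPolynomial.X j)) := by
    funext j
    by_cases h : j ∈ I
    · simp [gen, h]
    · simp [gen, h, Ideal.Quotient.eq_zero_iff_mem.2 (hI j h)]
  have h2 : MvPolynomial.aeval (fun j => (gen I Q j).getD 0) =
      (IsScalarTower.toAlgHom k (MvPolynomial σ k ⧸ Q)
        (FractionRing (MvPolynomial σ k ⧸ Q))).comp (Ideal.Quotient.mkₐ k Q) := by
    apply MvPolynomial.algHom_ext
    intro j
    rw [MvPolynomial.aeval_X]
    exact congrFun h1 j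
  rw [h2]
  rfl

theorem key_gen (I : Set σ) (Q : Ideal (MvPolynomial σ k)) [Q.IsPrime]
    (hI : ∀ j, j ∉ I → MvPolynomial.X j ∈ Q) : key k (gen I Q) = (I, Q) := by
  unfold key
  rw [gen_ne]
  congr 1
  ext f
  rw [RingHom.mem_ker, aeval_gen I Q hI, map_eq_zero_iff _ (IsFractionRing.injective _ _),
    Ideal.Quotient.eq_zero_iff_mem]

/-- If `V` is given by equations, and all its points have transcendence degree at most `d`, then
the points of transcendence degree `d` have finitely many keys. -/
theorem finite_keys (V : Var k σ) (I : Set σ) (S : Set (MvPolynomial σ k))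
    (hV : ∀ (N : Type) [Field N] [Algebra k N] (x : σ → Option N), V N x ↔
      {j | x j ≠ none} = I ∧ ∀ f ∈ S, MvPolynomial.aeval (fun j => (x j).getD 0) f = 0)
    (d : Cardinal.{0}) (hd : ∀ (N : Type) [Field N] [Algebra k N] (x : σ → Option N), V N x →
      Algebra.trdeg k (fld k x) ≤ d) :
    {Q : Key k σ | ∃ (N : Type) (_ : Field N) (_ : Algebra k N) (x : σ → Option N),
      V N x ∧ Algebra.trdeg k (fld k x) = d ∧ Q = key k x}.Finite := by
  classical
  set J : Ideal (MvPolynomial σ k) := Ideal.span (S ∪ {f | ∃ j, j ∉ I ∧ f = MvPolynomial.X j})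
    with hJ
  have hfin : (J.minimalPrimes).Finite := Ideal.finite_minimalPrimes_of_isNoetherianRing _ J
  refine (hfin.image fun P => ((I, P) : Key k σ)).subset ?_
  rintro _ ⟨N, _, _, x, hx, hr, rfl⟩
  obtain ⟨h1, h2⟩ := (hV N x).1 hx
  set g : σ → N := fun j => (x j).getD 0 with hg
  set P := RingHom.ker (MvPolynomial.aeval (R := k) g) with hP
  have hPp : P.IsPrime := RingHom.ker_isPrime _
  refine ⟨P, ?_, by rw [← h1]; rfl⟩
  have hJP : J ≤ P := by
    rw [hJ, Ideal.span_le]
    rintro f (hf | ⟨j, hj, rfl⟩)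
    · exact h2 f hf
    · change MvPolynomial.aeval g (MvPolynomial.X j) = 0
      rw [MvPolynomial.aeval_X]
      have : x j = none := by
        by_contra h3
        exact hj (h1 ▸ h3)
      simp [hg, this]
  refine ⟨⟨hPp, hJP⟩, ?_⟩
  rintro Q ⟨hQp, hJQ⟩ hQP
  have hQP' : Q ≤ P := hQP
  have hI : ∀ j, j ∉ I → MvPolynomial.X j ∈ Q := fun j hj =>
    hJQ (Ideal.subset_span (Or.inr ⟨j, hj, rfl⟩))
  have hVg : V _ (gen I Q) := by
    refine (hV _ _).2 ⟨gen_ne I Q, fun f hf => ?_⟩
    rw [aeval_gen I Q hI, Ideal.Quotient.eq_zero_iff_mem.2 (hJQ (Ideal.subset_span (Or.inl hf))),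
      map_zero]
  have h3 := hd _ _ hVg
  have hker : RingHom.ker (MvPolynomial.aeval (R := k) fun j => (gen I Q j).getD 0) = Q :=
    congrArg Prod.snd (key_gen I Q hI)
  rw [trdeg_fld_eq, hker, ← hr, trdeg_fld_eq] at h3
  exact (eq_of_trdeg hQP' h3).ge

end points

section YV

open Pool.Agent.Helper1
open Pool.Agent.Helper17.KA (KT sp Flat)

variable {k : Type} [Field k] {a p n r : ℕ} {c : Fin n → k} {τ : Fin n → Option (ZMod p)}

/-- Finiteness of the set of the components of dimension `r`, if all points have dimension at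
most `r`. -/
theorem finite_KT_of (hle : ∀ (N : Type) [Field N] [Algebra k N] (x : Fin n → Option N),
    KA.YV a c τ N x → Algebra.trdeg k (fld k x) ≤ (r : ℕ)) : (KT a c τ r).Finite := by
  refine finite_keys (KA.YV a c τ) {i | τ i ≠ none}
    {∑ i, MvPolynomial.C ((coef τ i : k) * c i) * MvPolynomial.X i ^ a,
      ∑ i, MvPolynomial.C (coef τ i : k) * MvPolynomial.X i} ?_ _ hle
  intro N _ _ x
  unfold KA.YV KA.AV KA.Bfun
  have h1 : {j | x j ≠ none} = {i | τ i ≠ none} ↔ ∀ i, τ i = none ↔ x i = none := by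
    rw [Set.ext_iff]
    constructor
    · intro h i
      exact (not_iff_not.1 (h i)).symm
    · intro h i
      exact (not_congr (h i)).symm
  rw [h1, and_assoc]
  refine and_congr_right fun _ => ?_
  constructor
  · rintro ⟨h2, h3⟩ f (rfl | rfl)
    · simpa [mul_assoc] using h2
    · simpa using h3
  · intro h
    have h2 := h _ (Or.inl rfl)
    have h3 := h _ (Or.inr rfl)
    exact ⟨by simpa [mul_assoc] using h2, by simpa using h3⟩

end YV

end Pool.Agent.Helper67.KA2
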